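import Mathlib

/-!
# Edge marginals of uniform connected subgraphs of fixed excess: a counterexample

For a finite connected graph `G` let `P_k` be the uniform measure on the connected spanning
subgraphs of `G` with exactly `|V| + k` edges, and `p_e(k)` the probability that such a subgraph
contains the edge `e`. We exhibit a simple graph with 11 vertices and 16 edges and an edge `e`
with `p_e(-1) = 10/13 > 49/64 = p_e(0)`.

The graph is a cycle of length six `x_0 x_1 x_2 x_3 x_4 x_5` in which each of the five edges
`x_{i-1} x_i` is completed to a triangle by a further vertex `y_i`; `e` is the remaining edge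
`x_0 x_5` of the cycle. (In the Lean numbering `x_i` is `i` and `y_i` is `5 + i`.)
-/

namespace Pool.Agent.Results.MP_7fb2f0_pr.Disproof

open SimpleGraph

/-- The connected spanning subgraphs of `G` with excess `k`: the simple graphs `H` on the same
vertex set, contained in `G`, connected, and with exactly `|V| + k` edges. -/
def connSub {V : Type} [Fintype V] (G : SimpleGraph V) (k : ℤ) : Set (SimpleGraph V) :=
  {H | H ≤ G ∧ H.Connected ∧ (H.edgeSet.ncard : ℤ) = (Fintype.card V : ℤ) + k}

/-- The edge marginal `p_e(k)`: the proportion of the connected spanning subgraphs of `G` with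
excess `k` which contain the edge `e`. -/
noncomputable def edgeMarginal {V : Type} [Fintype V] (G : SimpleGraph V) (e : Sym2 V) (k : ℤ) :
    ℚ :=
  ({H ∈ connSub G k | e ∈ H.edgeSet}.ncard : ℚ) / ((connSub G k).ncard : ℚ)

/-! ### The graph -/

/-- End points of the sixteen edges. -/
def ends : Fin 16 → Fin 11 × Fin 11 :=
  ![(0,5),(0,1),(0,6),(6,1),(1,2),(1,7),(7,2),(2,3),(2,8),(8,3),(3,4),(3,9),(9,4),(4,5),(4,10),
    (10,5)]

/-- The sixteen edges. -/
def toE (i : Fin 16) : Sym2 (Fin 11) := s((ends i).1, (ends i).2)

theorem toE_inj : Function.Injective toE := by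
  have h : ∀ i j : Fin 16, toE i = toE j → i = j := by decide
  exact fun i j hij => h i j hij

theorem toE_not_diag (i : Fin 16) : ¬ (toE i).IsDiag := by
  revert i; decide

/-- The graph of the counterexample. -/
def theG : SimpleGraph (Fin 11) := fromEdgeSet (Set.range toE)

/-- The spanning subgraph with a given list of edges. -/
def gl (l : List (Fin 16)) : SimpleGraph (Fin 11) := fromEdgeSet (toE '' {i | i ∈ l})

theorem edgeSet_gl (l : List (Fin 16)) : (gl l).edgeSet = toE '' {i | i ∈ l} := by
  unfold gl
  rw [edgeSet_fromEdgeSet]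
  ext e
  constructor
  · exact fun h => h.1
  · rintro ⟨i, hi, rfl⟩
    exact ⟨⟨i, hi, rfl⟩, toE_not_diag i⟩

theorem edgeSet_theG : theG.edgeSet = Set.range toE := by
  unfold theG
  rw [edgeSet_fromEdgeSet]
  ext e
  constructor
  · exact fun h => h.1
  · rintro ⟨i, rfl⟩
    exact ⟨⟨i, rfl⟩, toE_not_diag i⟩

theorem gl_le (l : List (Fin 16)) : gl l ≤ theG := by
  rw [← edgeSet_subset_edgeSet, edgeSet_gl, edgeSet_theG]
  rintro _ ⟨i, _, rfl⟩
  exact ⟨i, rfl⟩

theorem gl_adj (l : List (Fin 16)) (a b : Fin 11) :
    (gl l).Adj a b ↔ ∃ i ∈ l, toE i = s(a, b) := by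
  rw [← mem_edgeSet, edgeSet_gl]
  constructor
  · rintro ⟨i, hi, h⟩; exact ⟨i, hi, h⟩
  · rintro ⟨i, hi, h⟩; exact ⟨i, hi, h⟩

theorem gl_adj_of (l : List (Fin 16)) (i : Fin 16) (hi : i ∈ l) :
    (gl l).Adj (ends i).1 (ends i).2 := by
  rw [gl_adj]
  exact ⟨i, hi, rfl⟩

theorem ncard_edgeSet_gl (l : List (Fin 16)) (hl : l.Nodup) :
    (gl l).edgeSet.ncard = l.length := by
  rw [edgeSet_gl, Set.ncard_image_of_injective _ toE_inj]
  have : {i | i ∈ l} = (l.toFinset : Set (Fin 16)) := by ext i; simp
  rw [this, Set.ncard_coe_finset, List.toFinset_card_of_nodup hl]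

theorem exists_list (H : SimpleGraph (Fin 11)) (hH : H ≤ theG) :
    ∃ l : List (Fin 16), l.Sublist (List.finRange 16) ∧ gl l = H := by
  classical
  refine ⟨(List.finRange 16).filter (fun i => toE i ∈ H.edgeSet), List.filter_sublist, ?_⟩
  rw [← edgeSet_inj, edgeSet_gl]
  ext e
  constructor
  · rintro ⟨i, hi, rfl⟩
    simpa using hi
  · intro he
    have : e ∈ theG.edgeSet := (edgeSet_subset_edgeSet.2 hH) he
    rw [edgeSet_theG] at this
    obtain ⟨i, rfl⟩ := this
    exact ⟨i, by simpa using he, rfl⟩

theorem gl_injOn : Set.InjOn gl {l | l.Sublist (List.finRange 16)} := by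
  intro l hl l' hl' h
  have hl : l.Sublist (List.finRange 16) := hl
  have hl' : l'.Sublist (List.finRange 16) := hl'
  have hmem : ∀ i, i ∈ l ↔ i ∈ l' := by
    intro i
    have := congrArg SimpleGraph.edgeSet h
    rw [edgeSet_gl, edgeSet_gl] at this
    have := toE_inj.image_injective this
    have h2 : i ∈ {i | i ∈ l} ↔ i ∈ {i | i ∈ l'} := by rw [this]
    exact h2
  have nd := List.nodup_finRange 16
  have hp : l.Perm l' := (List.perm_ext_iff_of_nodup (hl.nodup nd) (hl'.nodup nd)).2 hmem
  have srt : (List.finRange 16).Pairwise (· < ·) := List.pairwise_lt_finRange 16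
  exact hp.eq_of_pairwise (le := (· < ·))
    (by intro a b _ _ h1 h2; exact absurd h1 (lt_asymm h2)) (srt.sublist hl) (srt.sublist hl')

/-! ### A fast connectivity check -/

/-- The set of the two end points of an edge, as a bit mask. -/
def code (i : Fin 16) : ℕ := Nat.lor (2 ^ (ends i).1.val) (2 ^ (ends i).2.val)

/-- The sixteen bit masks. -/
def codes : List ℕ :=
  [33, 3, 65, 66, 6, 130, 132, 12, 260, 264, 24, 520, 528, 48, 1040, 1056]

theorem map_code : (List.finRange 16).map code = codes := by decide +kernel

/-- Add the edge `e` to the set `s` if the two sets meet. -/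
def stp (s e : ℕ) : ℕ :=
  Bool.rec (motive := fun _ => ℕ) (Nat.lor s e) s (Nat.beq (Nat.land s e) 0)

/-- Go through the list of edges once, from left to right. -/
def pass (l : List ℕ) : ℕ → ℕ :=
  List.rec (motive := fun _ => ℕ → ℕ) (fun s => s)
    (fun e _ ih s => Bool.rec (motive := fun _ => ℕ) (ih (Nat.lor s e)) (ih s)
      (Nat.beq (Nat.land s e) 0)) l

/-- Go through the list of edges from left to right, and then back. -/
def pass2 (l : List ℕ) : ℕ → ℕ :=
  List.rec (motive := fun _ => ℕ → ℕ) (fun s => s)
    (fun e _ ih s =>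
      (fun t => Bool.rec (motive := fun _ => ℕ) (Nat.lor t e) t (Nat.beq (Nat.land t e) 0))
      (Bool.rec (motive := fun _ => ℕ) (ih (Nat.lor s e)) (ih s) (Nat.beq (Nat.land s e) 0))) l

/-- The vertices found from the vertex `0`. -/
def clos (l : List ℕ) : ℕ := pass l (pass2 l 1)

/-- Have all vertices been found? -/
def full (l : List ℕ) : Bool := Nat.beq (Nat.land (clos l) 2047) 2047

/-- Is the set `s` closed under the edges in the list? -/
def closed (l : List ℕ) (s : ℕ) : Bool := l.all (fun e => Nat.beq (stp s e) s)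

/-- The certificate: all vertices have been found or the set of vertices found is closed. -/
def okk (l : List ℕ) : Bool := full l || closed l (clos l)

theorem pass_cons (e : ℕ) (l : List ℕ) (s : ℕ) : pass (e :: l) s = pass l (stp s e) := by
  change Bool.rec (motive := fun _ => ℕ) (pass l (Nat.lor s e)) (pass l s)
      (Nat.beq (Nat.land s e) 0) = pass l (stp s e)
  unfold stp
  cases Nat.beq (Nat.land s e) 0 <;> rfl

theorem pass2_cons (e : ℕ) (l : List ℕ) (s : ℕ) :
    pass2 (e :: l) s = stp (pass2 l (stp s e)) e := by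
  have h : (Bool.rec (motive := fun _ => ℕ) (pass2 l (Nat.lor s e)) (pass2 l s)
      (Nat.beq (Nat.land s e) 0)) = pass2 l (stp s e) := by
    unfold stp
    cases Nat.beq (Nat.land s e) 0 <;> rfl
  rw [← h]
  rfl

theorem stp_eq (s e : ℕ) : stp s e = if s &&& e = 0 then s else s ||| e := by
  unfold stp
  by_cases h : s &&& e = 0
  · have h1 : Nat.land s e = 0 := h
    rw [h1, if_pos h]
    rfl
  · have h1 : Nat.land s e ≠ 0 := h
    have h2 : Nat.beq (Nat.land s e) 0 = false := by
      rw [Bool.eq_false_iff]
      intro hc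
      exact h1 (Nat.eq_of_beq_eq_true hc)
    rw [h2, if_neg h]
    rfl

theorem code_testBit (i : Fin 16) (j : ℕ) :
    (code i).testBit j = true ↔ j = (ends i).1.val ∨ j = (ends i).2.val := by
  have : code i = 2 ^ (ends i).1.val ||| 2 ^ (ends i).2.val := rfl
  rw [this, Nat.testBit_or, Nat.testBit_two_pow, Nat.testBit_two_pow, Bool.or_eq_true,
    decide_eq_true_iff, decide_eq_true_iff]
  constructor
  · rintro (h | h)
    · exact Or.inl h.symm
    · exact Or.inr h.symm
  · rintro (h | h)
    · exact Or.inl h.symm
    · exact Or.inr h.symm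

/-- The invariant of the search. -/
def Inv (l : List (Fin 16)) (s : ℕ) : Prop :=
  s.testBit 0 = true ∧ ∀ v : Fin 11, s.testBit v.val = true → (gl l).Reachable 0 v

theorem Inv.stp {l : List (Fin 16)} {s : ℕ} (h : Inv l s) {i : Fin 16} (hi : i ∈ l) :
    Inv l (stp s (code i)) := by
  rw [stp_eq]
  split_ifs with h0
  · exact h
  · refine ⟨by rw [Nat.testBit_or, h.1]; rfl, ?_⟩
    obtain ⟨j, hj⟩ := Nat.exists_testBit_of_ne_zero h0
    rw [Nat.testBit_and, Bool.and_eq_true, code_testBit] at hj
    have hadj := gl_adj_of l i hi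
    have hboth : (gl l).Reachable 0 (ends i).1 ∧ (gl l).Reachable 0 (ends i).2 := by
      rcases hj with ⟨hs, hj | hj⟩
      · have := h.2 (ends i).1 (by rw [← hj]; exact hs)
        exact ⟨this, this.trans hadj.reachable⟩
      · have := h.2 (ends i).2 (by rw [← hj]; exact hs)
        exact ⟨this.trans hadj.symm.reachable, this⟩
    intro v hv
    rw [Nat.testBit_or, Bool.or_eq_true, code_testBit] at hv
    rcases hv with hv | hv | hv
    · exact h.2 v hv
    · rw [Fin.ext hv]; exact hboth.1
    · rw [Fin.ext hv]; exact hboth.2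

theorem Inv.pass {l : List (Fin 16)} (l' : List (Fin 16)) (hl' : ∀ i ∈ l', i ∈ l) {s : ℕ}
    (h : Inv l s) : Inv l (pass (l'.map code) s) := by
  induction l' generalizing s with
  | nil => exact h
  | cons i t ih =>
    rw [List.map_cons, pass_cons]
    apply ih
    · intro j hj; exact hl' j (List.mem_cons_of_mem _ hj)
    · exact h.stp (hl' i List.mem_cons_self)

theorem Inv.pass2 {l : List (Fin 16)} (l' : List (Fin 16)) (hl' : ∀ i ∈ l', i ∈ l) {s : ℕ}
    (h : Inv l s) : Inv l (pass2 (l'.map code) s) := by
  induction l' generalizing s with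
  | nil => exact h
  | cons i t ih =>
    rw [List.map_cons, pass2_cons]
    apply Inv.stp _ (hl' i List.mem_cons_self)
    apply ih
    · intro j hj; exact hl' j (List.mem_cons_of_mem _ hj)
    · exact h.stp (hl' i List.mem_cons_self)

theorem Inv.clos (l : List (Fin 16)) : Inv l (clos (l.map code)) := by
  unfold Disproof.clos
  apply Inv.pass _ (fun i hi => hi)
  apply Inv.pass2 _ (fun i hi => hi)
  refine ⟨rfl, ?_⟩
  intro v hv
  have hv0 : v.val = 0 := by
    have h1 : (1 : ℕ) = 2 ^ 0 := rfl
    rw [h1, Nat.testBit_two_pow, decide_eq_true_iff] at hv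
    exact hv.symm
  have : v = 0 := Fin.ext hv0
  rw [this]

theorem full_iff_bits (s : ℕ) :
    Nat.beq (Nat.land s 2047) 2047 = true ↔ ∀ v : Fin 11, s.testBit v.val = true := by
  have e1 : Nat.land s 2047 = s &&& (2 ^ 11 - 1) := rfl
  constructor
  · intro h v
    have h := Nat.eq_of_beq_eq_true h
    rw [e1] at h
    have := congrArg (fun t => Nat.testBit t v.val) h
    simp only [Nat.testBit_and] at this
    have h2 : Nat.testBit 2047 v.val = true := by
      have : (2047 : ℕ) = 2 ^ 11 - 1 := rfl
      rw [this, Nat.testBit_two_pow_sub_one]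
      simp
    have h3 : Nat.testBit (2 ^ 11 - 1) v.val = true := h2
    rw [h2, h3, Bool.and_true] at this
    exact this
  · intro h
    have : Nat.land s 2047 = 2047 := by
      change s &&& (2 ^ 11 - 1) = 2 ^ 11 - 1
      apply Nat.eq_of_testBit_eq
      intro j
      rw [Nat.testBit_and, Nat.testBit_two_pow_sub_one]
      by_cases hj : j < 11
      · have := h ⟨j, hj⟩
        simp only at this
        simp [this]
      · simp [hj]
    rw [this]
    exact Nat.beq_refl _

theorem connected_of_full (l : List (Fin 16)) (h : full (l.map code) = true) :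
    (gl l).Connected := by
  unfold full at h
  rw [full_iff_bits] at h
  have hinv := Inv.clos l
  rw [connected_iff_exists_forall_reachable]
  exact ⟨0, fun v => hinv.2 v (h v)⟩

theorem full_of_connected (l : List (Fin 16)) (hc : (gl l).Connected)
    (hclosed : closed (l.map code) (clos (l.map code)) = true) : full (l.map code) = true := by
  unfold full
  rw [full_iff_bits]
  have hinv := Inv.clos l
  set s := clos (l.map code) with hs
  have hcl : ∀ i ∈ l, stp s (code i) = s := by
    intro i hi
    unfold closed at hclosed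
    rw [List.all_eq_true] at hclosed
    have := hclosed (code i) (List.mem_map_of_mem hi)
    exact Nat.eq_of_beq_eq_true this
  have hadj : ∀ a b : Fin 11, (gl l).Adj a b → s.testBit a.val = true →
      s.testBit b.val = true := by
    intro a b hab ha
    rw [gl_adj] at hab
    obtain ⟨i, hi, he⟩ := hab
    have h1 := hcl i hi
    rw [stp_eq] at h1
    have hab' : (a = (ends i).1 ∧ b = (ends i).2) ∨ (a = (ends i).2 ∧ b = (ends i).1) := by
      unfold toE at he
      rw [Sym2.eq_iff] at he
      rcases he with ⟨h1, h2⟩ | ⟨h1, h2⟩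
      · exact Or.inl ⟨h1.symm, h2.symm⟩
      · exact Or.inr ⟨h2.symm, h1.symm⟩
    have hca : (code i).testBit a.val = true := by
      rw [code_testBit]
      rcases hab' with ⟨h1, h2⟩ | ⟨h1, h2⟩
      · left; rw [h1]
      · right; rw [h1]
    have hcb : (code i).testBit b.val = true := by
      rw [code_testBit]
      rcases hab' with ⟨h1, h2⟩ | ⟨h1, h2⟩
      · right; rw [h2]
      · left; rw [h2]
    have hne : s &&& code i ≠ 0 := by
      intro h0
      have := congrArg (fun t => Nat.testBit t a.val) h0
      simp only [Nat.testBit_and, ha, hca] at this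
      simp at this
    rw [if_neg hne] at h1
    rw [← h1, Nat.testBit_or, hcb, Bool.or_true]
  intro v
  have hr : (gl l).Reachable 0 v := hc.preconnected 0 v
  obtain ⟨w⟩ := hr
  have key : ∀ (a b : Fin 11) (_ : (gl l).Walk a b), s.testBit a.val = true →
      s.testBit b.val = true := by
    intro a b w
    induction w with
    | nil => exact fun h => h
    | cons h p ih => exact fun ha => ih (hadj _ _ h ha)
  exact key 0 v w hinv.1

theorem full_iff_connected (l : List (Fin 16)) (h : okk (l.map code) = true) :
    full (l.map code) = true ↔ (gl l).Connected := by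
  constructor
  · exact connected_of_full l
  · intro hc
    unfold okk at h
    rw [Bool.or_eq_true] at h
    rcases h with h | h
    · exact h
    · exact full_of_connected l hc h

/-! ### Counting -/

set_option maxRecDepth 100000 in
theorem ok10 : (List.sublistsLen 10 codes).all okk = true := by decide +kernel

set_option maxRecDepth 100000 in
theorem ok11 : (List.sublistsLen 11 codes).all okk = true := by decide +kernel

set_option maxRecDepth 100000 in
theorem cnt10 : (List.sublistsLen 10 codes).countP full = 1053 := by decide +kernel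

set_option maxRecDepth 100000 in
theorem cnt11 : (List.sublistsLen 11 codes).countP full = 1728 := by decide +kernel

set_option maxRecDepth 100000 in
theorem cnt10e : (List.sublistsLen 10 codes).countP
    (fun l => full l && l.any (fun c => Nat.beq c 33)) = 810 := by decide +kernel

set_option maxRecDepth 100000 in
theorem cnt11e : (List.sublistsLen 11 codes).countP
    (fun l => full l && l.any (fun c => Nat.beq c 33)) = 1323 := by decide +kernel

theorem sublistsLen_map_aux {α β : Type} (f : α → β) : ∀ (n : ℕ) (l : List α),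
    List.sublistsLen n (l.map f) = (List.sublistsLen n l).map (List.map f)
  | 0, l => by simp
  | n + 1, [] => by simp
  | n + 1, a :: l => by
    rw [List.map_cons, List.sublistsLen_succ_cons, List.sublistsLen_succ_cons,
      sublistsLen_map_aux f (n + 1) l, sublistsLen_map_aux f n l, List.map_append, List.map_map,
      List.map_map]
    rfl

theorem codes_sublistsLen (j : ℕ) :
    List.sublistsLen j codes = (List.sublistsLen j (List.finRange 16)).map (List.map code) := by
  rw [← map_code, sublistsLen_map_aux]

theorem okk_of {j : ℕ} (h : (List.sublistsLen j codes).all okk = true) {l : List (Fin 16)}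
    (hl : l ∈ List.sublistsLen j (List.finRange 16)) : okk (l.map code) = true := by
  rw [codes_sublistsLen, List.all_map, List.all_eq_true] at h
  exact h l hl

/-- General counting lemma. -/
theorem count_gen (j : ℕ) (q : List ℕ → Bool) (Q : SimpleGraph (Fin 11) → Prop) (N : ℕ)
    (hq : ∀ l ∈ List.sublistsLen j (List.finRange 16), (q (l.map code) = true ↔ Q (gl l)))
    (hN : (List.sublistsLen j codes).countP q = N) :
    {H : SimpleGraph (Fin 11) | H ≤ theG ∧ H.edgeSet.ncard = j ∧ Q H}.ncard = N := by
  classical
  have hset : {H : SimpleGraph (Fin 11) | H ≤ theG ∧ H.edgeSet.ncard = j ∧ Q H} =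
      gl '' ((((List.sublistsLen j (List.finRange 16)).filter
        (fun l => q (l.map code))).toFinset : Finset (List (Fin 16))) : Set (List (Fin 16))) := by
    ext H
    constructor
    · rintro ⟨h1, h2, h3⟩
      obtain ⟨l, hl, rfl⟩ := exists_list H h1
      have hnd : l.Nodup := hl.nodup (List.nodup_finRange 16)
      rw [ncard_edgeSet_gl l hnd] at h2
      have hmem : l ∈ List.sublistsLen j (List.finRange 16) := by
        rw [List.mem_sublistsLen]; exact ⟨hl, h2⟩
      refine ⟨l, ?_, rfl⟩
      simp only [List.coe_toFinset, Set.mem_ofPred_eq, List.mem_filter]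
      exact ⟨hmem, (hq l hmem).2 h3⟩
    · rintro ⟨l, hl, rfl⟩
      simp only [List.coe_toFinset, Set.mem_ofPred_eq, List.mem_filter] at hl
      obtain ⟨hmem, hql⟩ := hl
      have hm := List.mem_sublistsLen.1 hmem
      refine ⟨gl_le l, ?_, (hq l hmem).1 hql⟩
      rw [ncard_edgeSet_gl l (hm.1.nodup (List.nodup_finRange 16)), hm.2]
  rw [hset, Set.InjOn.ncard_image, Set.ncard_coe_finset, List.toFinset_card_of_nodup]
  · rw [← hN, codes_sublistsLen, List.countP_map, List.countP_eq_length_filter]
    rfl
  · exact (List.nodup_sublistsLen _ (List.nodup_finRange 16)).filter _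
  · apply gl_injOn.mono
    intro l hl
    simp only [List.coe_toFinset, Set.mem_ofPred_eq, List.mem_filter] at hl
    exact (List.mem_sublistsLen.1 hl.1).1

theorem any_iff (l : List (Fin 16)) :
    ((l.map code).any (fun c => Nat.beq c 33)) = true ↔ toE 0 ∈ (gl l).edgeSet := by
  have hcode : ∀ i : Fin 16, Nat.beq (code i) 33 = true ↔ i = 0 := by decide +kernel
  rw [edgeSet_gl, List.any_map, List.any_eq_true]
  constructor
  · rintro ⟨i, hi, h⟩
    have : i = 0 := (hcode i).1 h
    subst this
    exact ⟨0, hi, rfl⟩
  · rintro ⟨i, hi, h⟩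
    have : i = 0 := toE_inj h
    subst this
    exact ⟨0, hi, (hcode 0).2 rfl⟩

theorem connSub_eq (k : ℤ) (j : ℕ) (hj : (j : ℤ) = 11 + k) :
    connSub theG k = {H : SimpleGraph (Fin 11) | H ≤ theG ∧ H.edgeSet.ncard = j ∧
      H.Connected} := by
  unfold connSub
  ext H
  simp only [Set.mem_ofPred_eq, Fintype.card_fin]
  constructor
  · rintro ⟨h1, h2, h3⟩
    refine ⟨h1, ?_, h2⟩
    have h4 : ((11 : ℕ) : ℤ) = 11 := rfl
    omega
  · rintro ⟨h1, h2, h3⟩
    refine ⟨h1, h3, ?_⟩
    have h4 : ((11 : ℕ) : ℤ) = 11 := rfl
    omega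

theorem connSub_e_eq (k : ℤ) (j : ℕ) (hj : (j : ℤ) = 11 + k) (e : Sym2 (Fin 11)) :
    {H ∈ connSub theG k | e ∈ H.edgeSet} =
      {H : SimpleGraph (Fin 11) | H ≤ theG ∧ H.edgeSet.ncard = j ∧
        (H.Connected ∧ e ∈ H.edgeSet)} := by
  rw [connSub_eq k j hj]
  ext H
  simp only [Set.mem_ofPred_eq]
  tauto

theorem card_conn (k : ℤ) (j N : ℕ) (hj : (j : ℤ) = 11 + k)
    (hok : (List.sublistsLen j codes).all okk = true)
    (hN : (List.sublistsLen j codes).countP full = N) : (connSub theG k).ncard = N := by
  rw [connSub_eq k j hj]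
  exact count_gen j full _ N (fun l hl => full_iff_connected l (okk_of hok hl)) hN

theorem card_conn_e (k : ℤ) (j N : ℕ) (hj : (j : ℤ) = 11 + k)
    (hok : (List.sublistsLen j codes).all okk = true)
    (hN : (List.sublistsLen j codes).countP
      (fun l => full l && l.any (fun c => Nat.beq c 33)) = N) :
    {H ∈ connSub theG k | toE 0 ∈ H.edgeSet}.ncard = N := by
  rw [connSub_e_eq k j hj]
  refine count_gen j _ _ N (fun l hl => ?_) hN
  rw [Bool.and_eq_true, full_iff_connected l (okk_of hok hl), any_iff]

theorem theG_connected : theG.Connected := by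
  have h : (connSub theG (-1)).ncard = 1053 := card_conn (-1) 10 1053 (by norm_num) ok10 cnt10
  have hne : (connSub theG (-1)).Nonempty := by
    apply Set.nonempty_of_ncard_ne_zero
    rw [h]; norm_num
  obtain ⟨H, hH⟩ := hne
  exact hH.2.1.mono hH.1

theorem theG_edges : theG.edgeSet.ncard = 16 := by
  rw [edgeSet_theG, ← Set.image_univ, Set.ncard_image_of_injective _ toE_inj, Set.ncard_univ]
  simp

/-- **Counterexample to the monotonicity of the edge marginals.** There are a connected simple
graph `G` with 11 vertices and 16 edges and an edge `e` of `G` such that a uniformly random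
spanning tree of `G` contains `e` with probability `10/13`, while a uniformly random connected
spanning subgraph with `|V|` edges contains `e` with the smaller probability `49/64`. -/
theorem result : ∃ (G : SimpleGraph (Fin 11)) (e : Sym2 (Fin 11)),
    G.Connected ∧ G.edgeSet.ncard = 16 ∧ e ∈ G.edgeSet ∧
      edgeMarginal G e (-1) = 10 / 13 ∧ edgeMarginal G e 0 = 49 / 64 ∧
      edgeMarginal G e 0 < edgeMarginal G e (-1) := by
  have h1 : edgeMarginal theG (toE 0) (-1) = 10 / 13 := by
    unfold edgeMarginal
    rw [card_conn (-1) 10 1053 (by norm_num) ok10 cnt10,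
      card_conn_e (-1) 10 810 (by norm_num) ok10 cnt10e]
    norm_num
  have h2 : edgeMarginal theG (toE 0) 0 = 49 / 64 := by
    unfold edgeMarginal
    rw [card_conn 0 11 1728 (by norm_num) ok11 cnt11,
      card_conn_e 0 11 1323 (by norm_num) ok11 cnt11e]
    norm_num
  refine ⟨theG, toE 0, theG_connected, theG_edges, ?_, h1, h2, ?_⟩
  · rw [edgeSet_theG]; exact ⟨0, rfl⟩
  · rw [h1, h2]; norm_num

end Pool.Agent.Results.MP_7fb2f0_pr.Disproof
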